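import Mathlib

/-!
Number theoretic facts: supports, Mersenne codes, primitive divisors for prime power exponents.
-/

namespace Pool.Agent.SqDef

/-- The prime divisors of `x` divide `y`, expressed by coprimality only. -/
def SuppLe (x y : ℕ) : Prop := ∀ t : ℕ, t.Coprime y → t.Coprime x

theorem suppLe_iff {x y : ℕ} : SuppLe x y ↔ ∀ p : ℕ, p.Prime → p ∣ x → p ∣ y := by
  constructor
  · intro h p hp hx
    by_contra hy
    have h1 := h p ((Nat.Prime.coprime_iff_not_dvd hp).2 hy)
    exact (Nat.Prime.coprime_iff_not_dvd hp).1 h1 hx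
  · intro h t ht
    by_contra hc
    obtain ⟨p, hp, h1, h2⟩ := Nat.Prime.not_coprime_iff_dvd.1 hc
    exact Nat.Prime.not_coprime_iff_dvd.2 ⟨p, hp, h1, h p hp h2⟩ ht

/-- The code of the exponent `a`. -/
def cd (a : ℕ) : ℕ := 2 ^ a - 1

theorem cd_succ_eq (a : ℕ) : cd a + 1 = 2 ^ a := by
  have : 1 ≤ 2 ^ a := Nat.one_le_two_pow
  unfold cd
  omega

theorem cd_inj {a b : ℕ} (h : cd a = cd b) : a = b := by
  have h1 : 2 ^ a = 2 ^ b := by rw [← cd_succ_eq, ← cd_succ_eq, h]
  exact Nat.pow_right_injective (le_refl 2) h1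

theorem one_le_cd {a : ℕ} (ha : 1 ≤ a) : 1 ≤ cd a := by
  have : 2 ^ 1 ≤ 2 ^ a := Nat.pow_le_pow_right (by norm_num) ha
  unfold cd
  omega

/-- codes of positive exponents -/
def IsCode (c : ℕ) : Prop := ∃ a : ℕ, 1 ≤ a ∧ c = cd a

theorem isCode_iff {c : ℕ} : IsCode c ↔ (¬ Nat.Coprime 2 (c + 1) ∧ SuppLe (c + 1) 2) := by
  constructor
  · rintro ⟨a, ha, rfl⟩
    rw [cd_succ_eq, suppLe_iff]
    constructor
    · intro h
      have h2 := (Nat.Prime.coprime_iff_not_dvd Nat.prime_two).1 h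
      exact h2 (dvd_pow_self 2 (by omega))
    · intro p hp h
      exact hp.dvd_of_dvd_pow h
  · rintro ⟨h1, h2⟩
    rw [suppLe_iff] at h2
    have h3 : c + 1 = 2 ^ (c + 1).primeFactorsList.length :=
      Nat.eq_prime_pow_of_unique_prime_dvd (by omega)
        (fun hd hd' => (Nat.prime_dvd_prime_iff_eq hd Nat.prime_two).1 (h2 _ hd hd'))
    refine ⟨(c + 1).primeFactorsList.length, ?_, ?_⟩
    · by_contra h0
      have h4 : (c + 1).primeFactorsList.length = 0 := by omega
      rw [h4] at h3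
      apply h1
      rw [h3]
      norm_num
    · unfold cd
      omega

theorem dvd_cd_iff {p a : ℕ} (hp : p.Prime) : p ∣ cd a ↔ (2 : ZMod p) ^ a = 1 := by
  have := Fact.mk hp
  have h : ((cd a : ℕ) : ZMod p) = (2 : ZMod p) ^ a - 1 := by
    have : ((cd a + 1 : ℕ) : ZMod p) = (2 : ZMod p) ^ a := by
      rw [cd_succ_eq]; push_cast; ring
    rw [← this]; push_cast; ring
  rw [← ZMod.natCast_eq_zero_iff, h, sub_eq_zero]

theorem dvd_cd_iff' {p a : ℕ} (hp : p.Prime) : p ∣ cd a ↔ orderOf (2 : ZMod p) ∣ a := by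
  rw [dvd_cd_iff hp, orderOf_dvd_iff_pow_eq_one]

theorem cd_dvd_cd {a b : ℕ} (h : a ∣ b) : cd a ∣ cd b := by
  obtain ⟨c, rfl⟩ := h
  unfold cd
  rw [pow_mul]
  exact Nat.sub_one_dvd_pow_sub_one _ c

/-- A prime divisor of `x ^ l - 1` not dividing `x - 1`. -/
theorem exists_prime_dvd_pow_sub_one {l x : ℕ} (hl : l.Prime) (hx : 2 ≤ x)
    (h2 : l = 2 → Even x) : ∃ q : ℕ, q.Prime ∧ q ∣ x ^ l - 1 ∧ ¬ q ∣ x - 1 := by
  by_contra hcon
  push Not at hcon
  set M : ℕ := ∑ i ∈ Finset.range l, x ^ i with hM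
  have hMl : l < M := by
    have h1 : ∑ _i ∈ Finset.range l, 1 < M := by
      apply Finset.sum_lt_sum
      · intro i _
        exact Nat.one_le_pow _ _ (by omega)
      · exact ⟨1, Finset.mem_range.2 hl.one_lt, by simpa using (by omega : 1 < x)⟩
    simpa using h1
  have hMd : M ∣ x ^ l - 1 := by
    have := Nat.geomSum_eq hx l
    rw [hM, this]
    exact Nat.div_dvd_of_dvd (Nat.sub_one_dvd_pow_sub_one x l)
  have hall : ∀ q : ℕ, q.Prime → q ∣ M → q = l := by
    intro q hq hqM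
    have hqx : q ∣ x - 1 := hcon q hq (hqM.trans hMd)
    have h1 : x ≡ 1 [MOD q] := ((Nat.modEq_iff_dvd' (by omega)).2 hqx).symm
    have h3 : M ≡ l [MOD q] := by
      have h4 : ∀ n : ℕ, ∑ i ∈ Finset.range n, x ^ i ≡ n [MOD q] := by
        intro n
        induction n with
        | zero => simp [Nat.ModEq]
        | succ n ih =>
          rw [Finset.sum_range_succ]
          exact ih.add (by simpa using h1.pow n)
      exact h4 l
    have h5 : q ∣ l := (h3.dvd_iff (dvd_refl q)).1 hqM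
    exact (Nat.prime_dvd_prime_iff_eq hq hl).1 h5
  have hMpow : M = l ^ M.primeFactorsList.length :=
    Nat.eq_prime_pow_of_unique_prime_dvd (by omega) (fun hd hd' => hall _ hd hd')
  have hs : 2 ≤ M.primeFactorsList.length := by
    by_contra h
    have h1 : M ≤ l ^ 1 := by
      rw [hMpow]
      exact Nat.pow_le_pow_right hl.pos (by omega)
    rw [pow_one] at h1
    omega
  have hsq : l ^ 2 ∣ M := by
    rw [hMpow]
    exact pow_dvd_pow l hs
  have hlM : l ∣ M := (dvd_pow_self l two_ne_zero).trans hsq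
  have hlx : l ∣ x - 1 := hcon l hl (hlM.trans hMd)
  rcases hl.eq_two_or_odd' with h | h
  · have h1 := h2 h
    rw [h] at hlx
    obtain ⟨k, hk⟩ := h1
    omega
  · have h3 : emultiplicity (l : ℤ) (∑ i ∈ Finset.range l, (x : ℤ) ^ i * 1 ^ (l - 1 - i)) = 1 := by
      apply emultiplicity_geom_sum₂_eq_one (Nat.prime_iff_prime_int.1 hl) h
      · have : ((x - 1 : ℕ) : ℤ) = (x : ℤ) - 1 := by
          push_cast [Nat.cast_sub (by omega : 1 ≤ x)]; ring
        rw [← this]
        exact_mod_cast hlx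
      · intro hd
        have hd' : l ∣ x := by exact_mod_cast hd
        have : l ∣ 1 := by
          have h6 := Nat.dvd_sub hd' hlx
          have h7 : x - (x - 1) = 1 := by omega
          rwa [h7] at h6
        exact hl.one_lt.ne' (Nat.dvd_one.1 this)
    have h4 : (l : ℤ) ^ 2 ∣ ∑ i ∈ Finset.range l, (x : ℤ) ^ i * 1 ^ (l - 1 - i) := by
      have h5 : ((l ^ 2 : ℕ) : ℤ) ∣ ((M : ℕ) : ℤ) := by exact_mod_cast hsq
      rw [hM] at h5
      push_cast at h5
      simpa using h5
    have h6 := le_emultiplicity_of_pow_dvd h4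
    rw [h3] at h6
    norm_num at h6

/-- For every prime power `n > 1` there is a prime `q` for which `2` has order `n`. -/
theorem exists_prime_orderOf_prime_pow {l : ℕ} (hl : l.Prime) (i : ℕ) :
    ∃ q : ℕ, q.Prime ∧ orderOf (2 : ZMod q) = l ^ (i + 1) := by
  have hx : 2 ≤ 2 ^ l ^ i := by
    calc 2 = 2 ^ 1 := by norm_num
      _ ≤ 2 ^ l ^ i := Nat.pow_le_pow_right (by norm_num) (Nat.one_le_pow _ _ hl.pos)
  obtain ⟨q, hq, h1, h2⟩ := exists_prime_dvd_pow_sub_one hl hx
    (fun _ => (Nat.even_pow.2 ⟨even_two, (Nat.pow_pos hl.pos).ne'⟩))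
  refine ⟨q, hq, ?_⟩
  have := Fact.mk hl
  apply orderOf_eq_prime_pow
  · intro h
    exact h2 ((dvd_cd_iff hq).2 h)
  · rw [← dvd_cd_iff hq]
    rw [← pow_mul, ← pow_succ] at h1
    exact h1

theorem suppLe_cd_iff {a b : ℕ} (ha : 1 ≤ a) (hb : 1 ≤ b) : SuppLe (cd a) (cd b) ↔ a ∣ b := by
  constructor
  · intro h
    rw [suppLe_iff] at h
    rw [← Nat.factorization_le_iff_dvd (by omega) (by omega)]
    intro l
    by_cases hl : l.Prime
    · by_contra hlt
      push Not at hlt
      set i := a.factorization l with hi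
      have hi1 : i ≠ 0 := by
        rintro h0
        rw [h0] at hlt
        omega
      obtain ⟨j, hj⟩ := Nat.exists_eq_succ_of_ne_zero hi1
      obtain ⟨q, hq, h1⟩ := exists_prime_orderOf_prime_pow hl j
      have h2 : q ∣ cd a := by
        rw [dvd_cd_iff' hq, h1]
        have := Nat.ordProj_dvd a l
        rw [← hi, hj] at this
        exact this
      have h3 := h q hq h2
      rw [dvd_cd_iff' hq, h1] at h3
      have h4 : j + 1 ≤ b.factorization l :=
        (hl.pow_dvd_iff_le_factorization (by omega)).1 h3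
      omega
    · rw [Nat.factorization_eq_zero_of_not_prime _ hl]
      exact Nat.zero_le _
  · intro h
    rw [suppLe_iff]
    intro p _ hpa
    exact hpa.trans (cd_dvd_cd h)

end Pool.Agent.SqDef
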