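import Mathlib

/-!
Definable predicates of valuations `v : ℕ → ℕ` in a structure on `ℕ` with one unary function
(successor) and one binary relation (coprimality).
-/

namespace Pool.Agent.SqDef

open FirstOrder FirstOrder.Language

/-- `Sig L` : the structure of `L` on `ℕ` has a symbol for the successor and a symbol for
coprimality. -/
structure Sig (L : FirstOrder.Language.{0, 0}) [L.Structure ℕ] where
  /-- symbol for the successor -/
  s : L.Functions 1
  /-- symbol for coprimality -/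
  r : L.Relations 2
  hs : ∀ v : Fin 1 → ℕ, Structure.funMap s v = v 0 + 1
  hr : ∀ v : Fin 2 → ℕ, Structure.RelMap r v ↔ Nat.Coprime (v 0) (v 1)

variable {L : FirstOrder.Language.{0, 0}} [L.Structure ℕ]

/-- The predicate `P` of valuations is defined by a formula. -/
def D (L : FirstOrder.Language.{0, 0}) [L.Structure ℕ] (P : (ℕ → ℕ) → Prop) : Prop :=
  ∃ φ : L.Formula ℕ, ∀ v : ℕ → ℕ, φ.Realize v ↔ P v

theorem D.congr {P Q : (ℕ → ℕ) → Prop} (h : D L P) (hPQ : ∀ v, P v ↔ Q v) : D L Q := by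
  obtain ⟨φ, hφ⟩ := h
  exact ⟨φ, fun v => (hφ v).trans (hPQ v)⟩

theorem D.not {P : (ℕ → ℕ) → Prop} (h : D L P) : D L (fun v => ¬ P v) := by
  obtain ⟨φ, hφ⟩ := h
  exact ⟨φ.not, fun v => by rw [Formula.realize_not, hφ]⟩

theorem D.and {P Q : (ℕ → ℕ) → Prop} (h : D L P) (h' : D L Q) : D L (fun v => P v ∧ Q v) := by
  obtain ⟨φ, hφ⟩ := h
  obtain ⟨ψ, hψ⟩ := h'
  exact ⟨φ ⊓ ψ, fun v => by rw [Formula.realize_inf, hφ, hψ]⟩

theorem D.or {P Q : (ℕ → ℕ) → Prop} (h : D L P) (h' : D L Q) : D L (fun v => P v ∨ Q v) := by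
  obtain ⟨φ, hφ⟩ := h
  obtain ⟨ψ, hψ⟩ := h'
  exact ⟨φ ⊔ ψ, fun v => by rw [Formula.realize_sup, hφ, hψ]⟩

theorem D.imp {P Q : (ℕ → ℕ) → Prop} (h : D L P) (h' : D L Q) : D L (fun v => P v → Q v) := by
  obtain ⟨φ, hφ⟩ := h
  obtain ⟨ψ, hψ⟩ := h'
  exact ⟨φ.imp ψ, fun v => by rw [Formula.realize_imp, hφ, hψ]⟩

theorem D.iff {P Q : (ℕ → ℕ) → Prop} (h : D L P) (h' : D L Q) :
    D L (fun v => (P v ↔ Q v)) := by
  obtain ⟨φ, hφ⟩ := h
  obtain ⟨ψ, hψ⟩ := h'
  exact ⟨φ.iff ψ, fun v => by rw [Formula.realize_iff, hφ, hψ]⟩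

/-- Existential quantification of the variable number `k`. -/
theorem D.ex (k : ℕ) {P : (ℕ → ℕ) → Prop} (h : D L P) :
    D L (fun v => ∃ x, P (Function.update v k x)) := by
  obtain ⟨φ, hφ⟩ := h
  let g : ℕ → ℕ ⊕ Unit := fun n => if n = k then Sum.inr () else Sum.inl n
  refine ⟨(φ.relabel g).iExs Unit, fun v => ?_⟩
  rw [Formula.realize_iExs]
  have key : ∀ i : Unit → ℕ, (φ.relabel g).Realize (Sum.elim v i) ↔
      P (Function.update v k (i ())) := by
    intro i
    rw [Formula.realize_relabel, ← hφ]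
    have : Sum.elim v i ∘ g = Function.update v k (i ()) := by
      funext n
      by_cases hn : n = k
      · simp [g, hn]
      · simp [g, hn]
    rw [this]
  constructor
  · rintro ⟨i, hi⟩
    exact ⟨i (), (key i).1 hi⟩
  · rintro ⟨x, hx⟩
    exact ⟨fun _ => x, (key _).2 hx⟩

theorem D.all (k : ℕ) {P : (ℕ → ℕ) → Prop} (h : D L P) :
    D L (fun v => ∀ x, P (Function.update v k x)) := by
  refine ((h.not).ex k).not.congr fun v => ?_
  push Not
  rfl

/-- The term `x + a`. -/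
def shiftTerm (σ : Sig L) (a : ℕ) (i : ℕ) : L.Term ℕ :=
  match a with
  | 0 => Term.var i
  | a + 1 => Term.func σ.s (fun _ => shiftTerm σ a i)

theorem realize_shiftTerm (σ : Sig L) (a i : ℕ) (v : ℕ → ℕ) :
    (shiftTerm σ a i).realize v = v i + a := by
  induction a with
  | zero => rfl
  | succ a ih =>
    rw [shiftTerm, Term.realize_func, σ.hs, ih]
    rfl

/-- Substitution of the terms `v (g n) + a n`. -/
theorem D.sub (σ : Sig L) (g a : ℕ → ℕ) {P : (ℕ → ℕ) → Prop} (h : D L P) :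
    D L (fun v => P (fun n => v (g n) + a n)) := by
  obtain ⟨φ, hφ⟩ := h
  refine ⟨φ.subst (fun n => shiftTerm σ (a n) (g n)), fun v => ?_⟩
  rw [Formula.Realize, BoundedFormula.realize_subst, ← Formula.Realize, hφ]
  simp only [realize_shiftTerm]

theorem D.eq (i j : ℕ) : D L (fun v => v i = v j) :=
  ⟨Term.equal (Term.var i) (Term.var j), fun v => by
    rw [Formula.realize_equal]; rfl⟩

theorem D.const (p : Prop) : D L (fun _ => p) := by
  by_cases hp : p
  · exact (D.eq 0 0).congr fun v => by simp [hp]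
  · exact (D.eq 0 0).not.congr fun v => by simp [hp]

theorem D.cop (σ : Sig L) (i j : ℕ) : D L (fun v => Nat.Coprime (v i) (v j)) :=
  ⟨σ.r.formula₂ (Term.var i) (Term.var j), fun v => by
    rw [Formula.realize_rel₂, σ.hr]; rfl⟩

/-- Definable relations of arity 1, 2, 3. -/
def D1 (L : FirstOrder.Language.{0, 0}) [L.Structure ℕ] (R : ℕ → Prop) : Prop := D L (fun v => R (v 0))

/-- Definable relations of arity 2. -/
def D2 (L : FirstOrder.Language.{0, 0}) [L.Structure ℕ] (R : ℕ → ℕ → Prop) : Prop :=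
  D L (fun v => R (v 0) (v 1))

/-- Definable relations of arity 3. -/
def D3 (L : FirstOrder.Language.{0, 0}) [L.Structure ℕ] (R : ℕ → ℕ → ℕ → Prop) : Prop :=
  D L (fun v => R (v 0) (v 1) (v 2))

theorem D1.at (σ : Sig L) {R : ℕ → Prop} (h : D1 L R) (i a : ℕ) :
    D L (fun v => R (v i + a)) :=
  D.sub σ (fun _ => i) (fun _ => a) h

theorem D2.at (σ : Sig L) {R : ℕ → ℕ → Prop} (h : D2 L R) (i a j b : ℕ) :
    D L (fun v => R (v i + a) (v j + b)) :=
  D.sub σ (fun n => if n = 0 then i else j) (fun n => if n = 0 then a else b) h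

theorem D3.at (σ : Sig L) {R : ℕ → ℕ → ℕ → Prop} (h : D3 L R) (i a j b k c : ℕ) :
    D L (fun v => R (v i + a) (v j + b) (v k + c)) :=
  D.sub σ (fun n => if n = 0 then i else if n = 1 then j else k)
    (fun n => if n = 0 then a else if n = 1 then b else c) h

/-- Numerical constants. -/
theorem D.isConst (σ : Sig L) (i c : ℕ) : D L (fun v => v i = c) := by
  have h0 : D1 L (fun x => x = 0) := by
    have h1 : D L (fun v => Nat.Coprime (v 0 + 1) (v 0 + 1)) :=
      D2.at σ (D.cop σ 0 1) 0 1 0 1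
    refine h1.congr fun v => ?_
    rw [Nat.coprime_self]
    omega
  -- `v i = c` iff there is `z = 0` with `v i = z + c`
  have h2 : D L (fun v => v 1 = v 0 + c) := D2.at σ (R := fun x y => x = y) (D.eq 0 1) 1 0 0 c
  have h3 : D L (fun v => v 0 = 0 ∧ v 1 = v 0 + c) := D.and h0 h2
  have h4 : D L (fun v => ∃ x, x = 0 ∧ v 1 = x + c) := (h3.ex 0).congr fun v => by simp
  have h5 : D1 L (fun y => ∃ x, x = 0 ∧ y = x + c) :=
    (D.sub σ (fun _ => 0) (fun _ => 0) h4)
  refine (D1.at σ h5 i 0).congr fun v => ?_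
  simp

/-- A definable predicate depending on one variable gives a definable set. -/
theorem D1.definable {R : ℕ → Prop} (h : D1 L R) :
    Set.Definable (∅ : Set ℕ) L {v : Fin 1 → ℕ | R (v 0)} := by
  obtain ⟨φ, hφ⟩ := h
  rw [Set.empty_definable_iff]
  refine ⟨φ.relabel (fun _ => (0 : Fin 1)), ?_⟩
  ext v
  change R (v 0) ↔ (φ.relabel (fun _ => (0 : Fin 1))).Realize v
  rw [Formula.realize_relabel, hφ]
  rfl

end Pool.Agent.SqDef
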