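import Mathlib
import Pool.Agent.Sq42_Def.Arith

/-!
The link between a prime `p` (given by any power `P` of `p`) and the code `cd p = 2 ^ p - 1`.
-/

namespace Pool.Agent.SqDef

/-- prime powers by coprimality -/
theorem isPrimePow_iff' {x : ℕ} : IsPrimePow x ↔
    (x ≠ 1 ∧ ∀ u v : ℕ, ¬ Nat.Coprime u x → ¬ Nat.Coprime v x → ¬ Nat.Coprime u v) := by
  constructor
  · intro h
    refine ⟨h.ne_one, fun u v hu hv => ?_⟩
    obtain ⟨p, k, hp, hk, rfl⟩ := (isPrimePow_nat_iff _).1 h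
    rw [Nat.coprime_pow_right_iff hk, Nat.coprime_comm, Nat.Prime.coprime_iff_not_dvd hp,
      not_not] at hu hv
    exact Nat.Prime.not_coprime_iff_dvd.2 ⟨p, hp, hu, hv⟩
  · rintro ⟨h1, h2⟩
    have h0 : x ≠ 0 := by
      rintro rfl
      exact h2 2 3 (by norm_num) (by norm_num) (by norm_num)
    obtain ⟨p, hp, hpx⟩ := Nat.exists_prime_and_dvd h1
    have h3 : x = p ^ x.primeFactorsList.length := by
      apply Nat.eq_prime_pow_of_unique_prime_dvd h0
      intro d hd hdx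
      have h4 := h2 p d (Nat.Prime.not_coprime_iff_dvd.2 ⟨p, hp, dvd_refl p, hpx⟩)
        (Nat.Prime.not_coprime_iff_dvd.2 ⟨d, hd, dvd_refl d, hdx⟩)
      obtain ⟨r, hr, hr1, hr2⟩ := Nat.Prime.not_coprime_iff_dvd.1 h4
      rw [← (Nat.prime_dvd_prime_iff_eq hr hd).1 hr2, ← (Nat.prime_dvd_prime_iff_eq hr hp).1 hr1]
    rw [isPrimePow_nat_iff]
    refine ⟨p, x.primeFactorsList.length, hp, ?_, h3.symm⟩
    rw [Nat.pos_iff_ne_zero]
    intro h5
    rw [h5, pow_zero] at h3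
    exact h1 h3

theorem not_coprime_pow_iff {p k m : ℕ} (hp : p.Prime) (hk : 0 < k) :
    ¬ Nat.Coprime (p ^ k) m ↔ p ∣ m := by
  rw [Nat.coprime_pow_left_iff hk, Nat.Prime.coprime_iff_not_dvd hp, not_not]

theorem suppLe_pow {p k m : ℕ} (hp : p.Prime) (h : SuppLe m (p ^ k)) (hm1 : m ≠ 1)
    (hm0 : m ≠ 0) : ∃ e, 0 < e ∧ m = p ^ e := by
  rw [suppLe_iff] at h
  have h3 : m = p ^ m.primeFactorsList.length := by
    apply Nat.eq_prime_pow_of_unique_prime_dvd hm0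
    intro d hd hdx
    exact (Nat.prime_dvd_prime_iff_eq hd hp).1 (hd.dvd_of_dvd_pow (h d hd hdx))
  refine ⟨_, ?_, h3⟩
  rw [Nat.pos_iff_ne_zero]
  intro h5
  rw [h5, pow_zero] at h3
  exact hm1 h3

/-- `c` is the code of the odd prime `p`, where `P` is a power of `p`. -/
def LinkC (P c : ℕ) : Prop :=
  ∀ F' Q0 Q', IsPrimePow (F' + 2) → IsPrimePow Q0 → IsPrimePow (Q' + 1) →
    ¬ Nat.Coprime Q0 F' → ¬ Nat.Coprime Q0 c →
    (∀ c', IsCode c' → ¬ Nat.Coprime Q0 c' → SuppLe c c') →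
    Nat.Coprime (Q' + 1) (F' + 2) →
    (∀ y, SuppLe (y + 1) (F' + 2) → SuppLe (F' + 2) (y + 1) →
      ¬ Nat.Coprime (Q' + 1) y → ¬ Nat.Coprime Q0 y) →
    ¬ Nat.Coprime P Q'

theorem dvd_sub_one_iff {q x : ℕ} (hx : 1 ≤ x) : q ∣ x - 1 ↔ (x : ZMod q) = 1 := by
  rw [← ZMod.natCast_eq_zero_iff, Nat.cast_sub hx, Nat.cast_one, sub_eq_zero]

theorem link_of_eq {p k : ℕ} (hp : p.Prime) (hk : 0 < k) (hp1 : 1 ≤ p) :
    LinkC (p ^ k) (cd p) := by
  intro F' Q0 Q' hF hQ0 hQ h1 h2 h3 h4 h5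
  obtain ⟨f, i, hf, hi, hfi⟩ := (isPrimePow_nat_iff _).1 hF
  obtain ⟨q0, j, hq0, hj, rfl⟩ := (isPrimePow_nat_iff _).1 hQ0
  obtain ⟨q, l, hq, hl, hql⟩ := (isPrimePow_nat_iff _).1 hQ
  rw [not_coprime_pow_iff hq0 hj] at h1 h2
  have := Fact.mk hq0
  have := Fact.mk hq
  -- order of 2 modulo q0 is p
  have hd1 : orderOf (2 : ZMod q0) ∣ p := (dvd_cd_iff' hq0).1 h2
  have hd0 : 1 ≤ orderOf (2 : ZMod q0) := Nat.pos_of_dvd_of_pos hd1 hp.pos
  have hd2 : p ∣ orderOf (2 : ZMod q0) := by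
    rw [← suppLe_cd_iff hp1 hd0]
    apply h3 _ ⟨_, hd0, rfl⟩
    rw [not_coprime_pow_iff hq0 hj, dvd_cd_iff' hq0]
  have hord : orderOf (2 : ZMod q0) = p := Nat.dvd_antisymm hd1 hd2
  -- f ^ i = 2 modulo q0
  have hf2 : (f : ZMod q0) ^ i = 2 := by
    have h6 : ((F' + 2 : ℕ) : ZMod q0) = 2 := by
      push_cast
      rw [(ZMod.natCast_eq_zero_iff _ _).2 h1, zero_add]
    rw [← hfi] at h6
    push_cast at h6
    exact h6
  have hqf : ¬ q ∣ f := by
    intro hd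
    rw [← hql, ← hfi] at h4
    have h6 := (Nat.coprime_pow_left_iff hl _ _).1 h4
    have h7 := (Nat.coprime_pow_right_iff hi _ _).1 h6
    exact (Nat.Prime.coprime_iff_not_dvd hq).1 h7 hd
  have hfq0 : (f : ZMod q) ≠ 0 := fun h => hqf ((ZMod.natCast_eq_zero_iff _ _).1 h)
  -- e1 = order of f modulo q
  set e1 := orderOf (f : ZMod q) with he1
  have he1d : e1 ∣ q - 1 := orderOf_dvd_of_pow_eq_one (ZMod.pow_card_sub_one_eq_one hfq0)
  have he1p : 1 ≤ e1 := Nat.pos_of_dvd_of_pos he1d (by have := hq.two_le; omega)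
  have hfe : 1 ≤ f ^ e1 := Nat.one_le_pow _ _ hf.pos
  have h6 := h5 (f ^ e1 - 1) (by
      rw [Nat.sub_add_cancel hfe, ← hfi, suppLe_iff]
      intro r hr hd
      exact (hr.dvd_of_dvd_pow hd).trans (dvd_pow_self f hi.ne')) (by
      rw [Nat.sub_add_cancel hfe, ← hfi, suppLe_iff]
      intro r hr hd
      exact (hr.dvd_of_dvd_pow hd).trans (dvd_pow_self f (by omega))) (by
      rw [← hql, not_coprime_pow_iff hq hl, dvd_sub_one_iff hfe]
      push_cast
      exact pow_orderOf_eq_one _)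
  rw [not_coprime_pow_iff hq0 hj, dvd_sub_one_iff hfe] at h6
  push_cast at h6
  have h7 : p ∣ e1 := by
    rw [← hord]
    apply orderOf_dvd_of_pow_eq_one
    rw [← hf2, ← pow_mul, mul_comm, pow_mul, h6, one_pow]
  rw [not_coprime_pow_iff hp hk]
  have h8 : Q' = q ^ l - 1 := by omega
  rw [h8]
  exact (h7.trans he1d).trans (Nat.sub_one_dvd_pow_sub_one q l)

theorem eq_of_link {p k n : ℕ} (hp : p.Prime) (hk : 0 < k) (hp2 : p ≠ 2) (hn : n.Prime)
    (h : LinkC (p ^ k) (cd n)) : n = p := by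
  by_contra hne
  obtain ⟨q0, hq0, hord⟩ := exists_prime_orderOf_prime_pow hn 0
  rw [zero_add, pow_one] at hord
  have := Fact.mk hq0
  have hcop : Nat.Coprime n p := (Nat.coprime_primes hn hp).2 hne
  -- q prime, q = 1 mod n, q = 2 mod p
  obtain ⟨r, hr1, hr2⟩ := Nat.chineseRemainder hcop 1 2
  have hrc : r.Coprime (n * p) := by
    apply Nat.Coprime.mul_right
    · rw [Nat.coprime_iff_gcd_eq_one, hr1.gcd_eq]
      simp
    · rw [Nat.coprime_iff_gcd_eq_one, hr2.gcd_eq]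
      exact (Nat.coprime_primes Nat.prime_two hp).2 (Ne.symm hp2)
  obtain ⟨q, hqgt, hq, hqr⟩ := Nat.forall_exists_prime_gt_and_modEq q0
    (Nat.mul_ne_zero hn.ne_zero hp.ne_zero) hrc
  have hq1 : q ≡ 1 [MOD n] := (hqr.of_mul_right p).trans hr1
  have hq2 : q ≡ 2 [MOD p] := (hqr.of_mul_left n).trans hr2
  have := Fact.mk hq
  -- primitive root
  obtain ⟨g, hg⟩ := IsCyclic.exists_generator (α := (ZMod q)ˣ)
  have hgo : orderOf (g : ZMod q) = q - 1 := by
    rw [orderOf_units, orderOf_eq_card_of_forall_mem_zpowers hg, Nat.card_eq_fintype_card,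
      ZMod.card_units]
  have hcop2 : Nat.Coprime q0 q := (Nat.coprime_primes hq0 hq).2 (by omega)
  have hq02 : q0 ≠ 2 := by
    rintro rfl
    have h1 : orderOf (2 : ZMod 2) = 0 := by
      have h20 : (2 : ZMod 2) = 0 := by exact_mod_cast ZMod.natCast_self 2
      rw [h20, orderOf_eq_zero_iff']
      intro m hm
      rw [zero_pow hm.ne']
      exact zero_ne_one
    rw [h1] at hord
    exact hn.ne_zero hord.symm
  obtain ⟨s, hs1, hs2⟩ := Nat.chineseRemainder hcop2 2 (g : ZMod q).val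
  have hsc : s.Coprime (q0 * q) := by
    apply Nat.Coprime.mul_right
    · rw [Nat.coprime_iff_gcd_eq_one, hs1.gcd_eq]
      exact (Nat.coprime_primes Nat.prime_two hq0).2 (Ne.symm hq02)
    · rw [Nat.coprime_iff_gcd_eq_one, hs2.gcd_eq]
      exact ZMod.val_coe_unit_coprime g
  obtain ⟨f, hfgt, hf, hfs⟩ := Nat.forall_exists_prime_gt_and_modEq (q + 2)
    (Nat.mul_ne_zero hq0.ne_zero hq.ne_zero) hsc
  have hf1 : f ≡ 2 [MOD q0] := (hfs.of_mul_right q).trans hs1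
  have hf2 : f ≡ (g : ZMod q).val [MOD q] := (hfs.of_mul_left q0).trans hs2
  have hf1' : (f : ZMod q0) = 2 := by
    have := (ZMod.natCast_eq_natCast_iff _ _ _).2 hf1
    push_cast at this
    exact this
  have hf2' : (f : ZMod q) = (g : ZMod q) := by
    have := (ZMod.natCast_eq_natCast_iff _ _ _).2 hf2
    rw [this, ZMod.natCast_zmod_val]
  have hF : f - 2 + 2 = f := by omega
  have hQ : q - 1 + 1 = q := by have := hq.two_le; omega
  have hnq : n ∣ q - 1 := (Nat.modEq_iff_dvd' hq.one_lt.le).1 hq1.symm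
  have key := h (f - 2) q0 (q - 1) (by rw [hF]; exact hf.isPrimePow) hq0.isPrimePow
    (by rw [hQ]; exact hq.isPrimePow)
    (by
      rw [Nat.Prime.coprime_iff_not_dvd hq0, not_not]
      exact (Nat.modEq_iff_dvd' (by omega)).1 hf1.symm)
    (by
      rw [Nat.Prime.coprime_iff_not_dvd hq0, not_not, dvd_cd_iff' hq0, hord])
    (by
      rintro c' ⟨a, ha, rfl⟩ hc'
      rw [Nat.Prime.coprime_iff_not_dvd hq0, not_not, dvd_cd_iff' hq0, hord] at hc'
      exact (suppLe_cd_iff hn.one_lt.le ha).2 hc')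
    (by
      rw [hF, hQ]
      exact (Nat.coprime_primes hq hf).2 (by omega))
    (by
      intro y hy1 hy2 hy3
      rw [hF] at hy1 hy2
      rw [hQ, Nat.Prime.coprime_iff_not_dvd hq, not_not] at hy3
      rw [Nat.Prime.coprime_iff_not_dvd hq0, not_not]
      have hy0 : y + 1 ≠ 1 := by
        intro h0
        rw [h0, suppLe_iff] at hy2
        exact hf.one_lt.ne' (Nat.dvd_one.1 (hy2 f hf (dvd_refl f)))
      obtain ⟨e, he, hye⟩ := suppLe_pow (k := 1) hf (by rwa [pow_one]) hy0 (by omega)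
      have hy4 : y = f ^ e - 1 := by omega
      have hfe : 1 ≤ f ^ e := Nat.one_le_pow _ _ hf.pos
      rw [hy4, dvd_sub_one_iff hfe] at hy3 ⊢
      push_cast at hy3 ⊢
      rw [hf2', ← orderOf_dvd_iff_pow_eq_one, hgo] at hy3
      rw [hf1', ← orderOf_dvd_iff_pow_eq_one, hord]
      exact hnq.trans hy3)
  rw [not_coprime_pow_iff hp hk] at key
  have h9 : q ≡ 1 [MOD p] := ((Nat.modEq_iff_dvd' hq.one_lt.le).2 key).symm
  have h10 : 2 ≡ 1 [MOD p] := hq2.symm.trans h9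
  have h11 : p ∣ 2 - 1 := (Nat.modEq_iff_dvd' (by norm_num)).1 h10.symm
  exact hp.one_lt.ne' (Nat.dvd_one.1 h11)

end Pool.Agent.SqDef
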