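import Mathlib

/-!
Product and sum of positive integers in terms of successor, divisibility, coprimality, lcm
(J. Robinson).
-/

namespace Pool.Agent.SqDef

/-- `t` is coprime to `u` and `t * u` is congruent to `-1` modulo `m`. -/
def Inv (m t u : ℕ) : Prop := t.Coprime u ∧ m ∣ Nat.lcm t u + 1

/-- Congruence of units modulo the prime `m`. -/
def Cg (m u v : ℕ) : Prop := ∃ t, 1 ≤ t ∧ Inv m t u ∧ Inv m t v

/-- The product relation. -/
def Mul (x y z : ℕ) : Prop :=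
  ∀ m, 1 ≤ m → m.Prime → ¬ m ∣ x → ¬ m ∣ y → ¬ m ∣ z →
    ∃ y', 1 ≤ y' ∧ Cg m y' y ∧ y'.Coprime x ∧ Cg m (Nat.lcm x y') z

theorem inv_mul {m t u : ℕ} (h : Inv m t u) : m ∣ t * u + 1 := by
  have := h.2
  rwa [h.1.lcm_eq_mul] at this

theorem inv_zmod {m t u : ℕ} (h : Inv m t u) : (t : ZMod m) * u = -1 := by
  have h1 := (ZMod.natCast_eq_zero_iff _ _).2 (inv_mul h)
  push_cast at h1
  exact eq_neg_of_add_eq_zero_left h1

theorem cg_imp {m u v : ℕ} (h : Cg m u v) : (u : ZMod m) = v := by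
  obtain ⟨t, _, h1, h2⟩ := h
  have e1 := inv_zmod h1
  have e2 := inv_zmod h2
  calc (u : ZMod m) = -((t : ZMod m) * v) * u := by rw [e2]; ring
    _ = -((t : ZMod m) * u) * v := by ring
    _ = v := by rw [e1]; ring

theorem cg_of {m u v : ℕ} (hm : m.Prime) (hu : ¬ m ∣ u) (hu1 : 1 ≤ u) (hv1 : 1 ≤ v)
    (h : (u : ZMod m) = v) : Cg m u v := by
  have := Fact.mk hm
  have hu0 : (u : ZMod m) ≠ 0 := fun h0 => hu ((ZMod.natCast_eq_zero_iff _ _).1 h0)
  have hunit : IsUnit (-(u : ZMod m)⁻¹) := by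
    rw [isUnit_iff_ne_zero]
    exact neg_ne_zero.2 (inv_ne_zero hu0)
  obtain ⟨t, ht, htp, hte⟩ := Nat.forall_exists_prime_gt_and_eq_mod hunit (u + v)
  have hcu : t.Coprime u := (Nat.Prime.coprime_iff_not_dvd htp).2
    (fun hd => by have := Nat.le_of_dvd (by omega) hd; omega)
  have hcv : t.Coprime v := (Nat.Prime.coprime_iff_not_dvd htp).2
    (fun hd => by have := Nat.le_of_dvd (by omega) hd; omega)
  have e1 : (t : ZMod m) * u = -1 := by
    rw [hte]; field_simp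
  have e2 : (t : ZMod m) * v = -1 := by rw [← h]; exact e1
  refine ⟨t, htp.one_lt.le, ⟨hcu, ?_⟩, ⟨hcv, ?_⟩⟩
  · rw [hcu.lcm_eq_mul, ← ZMod.natCast_eq_zero_iff]
    push_cast
    rw [e1]; ring
  · rw [hcv.lcm_eq_mul, ← ZMod.natCast_eq_zero_iff]
    push_cast
    rw [e2]; ring

theorem mul_iff {x y z : ℕ} (hx : 1 ≤ x) (hy : 1 ≤ y) (hz : 1 ≤ z) : Mul x y z ↔ x * y = z := by
  constructor
  · intro h
    obtain ⟨m, hm, hmp⟩ := Nat.exists_infinite_primes (x * y + z + x + y + 1)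
    have hnd : ∀ w, 1 ≤ w → w < m → ¬ m ∣ w := fun w h1 h2 hd => by
      have := Nat.le_of_dvd (by omega) hd
      omega
    obtain ⟨y', hy', h1, h2, h3⟩ := h m hmp.one_lt.le hmp (hnd x hx (by omega))
      (hnd y hy (by omega)) (hnd z hz (by omega))
    have e1 := cg_imp h1
    have e2 := cg_imp h3
    rw [h2.symm.lcm_eq_mul] at e2
    push_cast at e2
    rw [e1] at e2
    have e3 : ((x * y : ℕ) : ZMod m) = (z : ℕ) := by push_cast; exact e2
    rw [ZMod.natCast_eq_natCast_iff] at e3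
    exact Nat.ModEq.eq_of_lt_of_lt e3 (by omega) (by omega)
  · rintro rfl m _ hm hmx hmy _
    have := Fact.mk hm
    have hy0 : (y : ZMod m) ≠ 0 := fun h0 => hmy ((ZMod.natCast_eq_zero_iff _ _).1 h0)
    have hx0 : (x : ZMod m) ≠ 0 := fun h0 => hmx ((ZMod.natCast_eq_zero_iff _ _).1 h0)
    obtain ⟨y', hy', hyp, hye⟩ :=
      Nat.forall_exists_prime_gt_and_eq_mod (isUnit_iff_ne_zero.2 hy0) x
    have hcx : y'.Coprime x := (Nat.Prime.coprime_iff_not_dvd hyp).2
      (fun hd => by have := Nat.le_of_dvd (by omega) hd; omega)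
    have hmy' : ¬ m ∣ y' := fun hd => by
      rw [← ZMod.natCast_eq_zero_iff, hye] at hd
      exact hy0 hd
    refine ⟨y', hyp.one_lt.le, cg_of hm hmy' hyp.one_lt.le hy hye, hcx, ?_⟩
    rw [hcx.symm.lcm_eq_mul]
    have hxy' : ¬ m ∣ x * y' := fun hd => by
      rcases (Nat.Prime.dvd_mul hm).1 hd with h | h
      · exact hmx h
      · exact hmy' h
    refine cg_of hm hxy' (Nat.mul_pos hx hyp.pos) (Nat.mul_pos hx hy) ?_
    push_cast
    rw [hye]

theorem add_iff {a b c : ℕ} (hc : 1 ≤ c) :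
    a + b = c ↔ (a * c + 1) * (b * c + 1) = c * c * (a * b + 1) + 1 := by
  have e1 : (a * c + 1) * (b * c + 1) = a * b * (c * c) + (a + b) * c + 1 := by ring
  have e2 : c * c * (a * b + 1) + 1 = a * b * (c * c) + c * c + 1 := by ring
  rw [e1, e2]
  constructor
  · rintro rfl; rfl
  · intro h
    have h1 : (a + b) * c = c * c := by omega
    exact Nat.eq_of_mul_eq_mul_right hc h1

end Pool.Agent.SqDef
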