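import Mathlib
import Pool.Agent.Sq42_Def.Frame
import Pool.Agent.Sq42_Def.Arith
import Pool.Agent.Sq42_Def.Link
import Pool.Agent.Sq42_Def.Mult

/-!
Definability of the basic relations on codes, and of the relation of divisibility of the exponent
by an actual prime.
-/

namespace Pool.Agent.SqDef

open FirstOrder

variable {L : FirstOrder.Language.{0, 0}} [L.Structure ℕ]

/-- Substituting a constant. -/
theorem D.setc (σ : Sig L) (k c : ℕ) {P : (ℕ → ℕ) → Prop} (h : D L P) :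
    D L (fun v => P (Function.update v k c)) := by
  refine (((D.isConst σ k c).and h).ex k).congr fun v => ?_
  constructor
  · rintro ⟨x, hx, hP⟩
    rw [Function.update_self] at hx
    rwa [hx] at hP
  · intro hP
    exact ⟨c, Function.update_self _ _ _, hP⟩

theorem D2_suppLe (σ : Sig L) : D2 L SuppLe := by
  refine (((D.cop σ 2 1).imp (D.cop σ 2 0)).all 2).congr fun v => ?_
  simp [SuppLe]

theorem D1_isCode (σ : Sig L) : D1 L IsCode := by
  have h1 : D L (fun v => ¬ Nat.Coprime (v 1) (v 0 + 1)) :=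
    (D2.at σ (R := Nat.Coprime) (D.cop σ 0 1) 1 0 0 1).not
  have h2 : D L (fun v => SuppLe (v 0 + 1) (v 1)) := D2.at σ (D2_suppLe σ) 0 1 1 0
  refine ((h1.and h2).setc σ 1 2).congr fun v => ?_
  rw [isCode_iff]
  simp

theorem D1_isPrimePow (σ : Sig L) : D1 L IsPrimePow := by
  have h1 : D L (fun v => ¬ Nat.Coprime (v 1) (v 0) → ¬ Nat.Coprime (v 2) (v 0) →
      ¬ Nat.Coprime (v 1) (v 2)) :=
    (D.cop σ 1 0).not.imp ((D.cop σ 2 0).not.imp (D.cop σ 1 2).not)
  refine (((D.isConst σ 0 1).not).and ((h1.all 2).all 1)).congr fun v => ?_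
  rw [isPrimePow_iff']
  simp

theorem D2_linkC (σ : Sig L) : D2 L LinkC := by
  -- variables: 0 = P, 1 = c, 2 = F', 3 = Q0, 4 = Q', 5 = c' or y
  have hpp := D1_isPrimePow σ
  have hs := D2_suppLe σ
  have hc : D2 L Nat.Coprime := D.cop σ 0 1
  have a1 : D L (fun v => IsPrimePow (v 2 + 2)) := hpp.at σ 2 2
  have a2 : D L (fun v => IsPrimePow (v 3)) := hpp.at σ 3 0
  have a3 : D L (fun v => IsPrimePow (v 4 + 1)) := hpp.at σ 4 1
  have a4 : D L (fun v => ¬ Nat.Coprime (v 3) (v 2)) := (D.cop σ 3 2).not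
  have a5 : D L (fun v => ¬ Nat.Coprime (v 3) (v 1)) := (D.cop σ 3 1).not
  have a6 : D L (fun v => IsCode (v 5) → ¬ Nat.Coprime (v 3) (v 5) → SuppLe (v 1) (v 5)) :=
    ((D1_isCode σ).at σ 5 0).imp ((D.cop σ 3 5).not.imp (hs.at σ 1 0 5 0))
  have a7 : D L (fun v => Nat.Coprime (v 4 + 1) (v 2 + 2)) := hc.at σ 4 1 2 2
  have a8 : D L (fun v => SuppLe (v 5 + 1) (v 2 + 2) → SuppLe (v 2 + 2) (v 5 + 1) →
      ¬ Nat.Coprime (v 4 + 1) (v 5) → ¬ Nat.Coprime (v 3) (v 5)) :=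
    (hs.at σ 5 1 2 2).imp ((hs.at σ 2 2 5 1).imp ((hc.at σ 4 1 5 0).not.imp (D.cop σ 3 5).not))
  have a9 : D L (fun v => ¬ Nat.Coprime (v 0) (v 4)) := (D.cop σ 0 4).not
  have b := ((((a1.imp (a2.imp (a3.imp (a4.imp (a5.imp ((a6.all 5).imp (a7.imp
    ((a8.all 5).imp a9)))))))).all 4).all 3).all 2)
  refine b.congr fun v => ?_
  simp [LinkC]

/-- `c` is the code of a prime exponent. -/
def PrimeC (c : ℕ) : Prop :=
  IsCode c ∧ c ≠ 1 ∧ ∀ d, IsCode d → SuppLe d c → d = 1 ∨ d = c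

theorem primeC_iff {c : ℕ} : PrimeC c ↔ ∃ n : ℕ, n.Prime ∧ c = cd n := by
  constructor
  · rintro ⟨⟨a, ha, rfl⟩, h1, h2⟩
    refine ⟨a, ?_, rfl⟩
    rw [Nat.prime_def]
    constructor
    · by_contra h3
      have : a = 1 := by omega
      rw [this] at h1
      exact h1 rfl
    · intro m hm
      have hm1 : 1 ≤ m := Nat.pos_of_dvd_of_pos hm (by omega)
      rcases h2 (cd m) ⟨m, hm1, rfl⟩ ((suppLe_cd_iff hm1 ha).2 hm) with h | h
      · left
        exact cd_inj (h.trans (by rfl : (1 : ℕ) = cd 1))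
      · right
        exact cd_inj h
  · rintro ⟨n, hn, rfl⟩
    refine ⟨⟨n, hn.one_lt.le, rfl⟩, ?_, ?_⟩
    · intro h
      exact hn.one_lt.ne' (cd_inj (h.trans (by rfl : (1 : ℕ) = cd 1)))
    · rintro d ⟨m, hm, rfl⟩ h
      rw [suppLe_cd_iff hm hn.one_lt.le] at h
      rcases (Nat.dvd_prime hn).1 h with h | h
      · left; rw [h]; rfl
      · right; rw [h]

theorem D1_primeC (σ : Sig L) : D1 L PrimeC := by
  have a1 : D L (fun v => IsCode (v 1) → SuppLe (v 1) (v 0) → (v 1 = 1 ∨ v 1 = v 0)) :=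
    ((D1_isCode σ).at σ 1 0).imp (((D2_suppLe σ).at σ 1 0 0 0).imp
      ((D.isConst σ 1 1).or (D.eq 1 0)))
  refine (((D1_isCode σ).at σ 0 0).and ((D.isConst σ 0 1).not.and (a1.all 1))).congr fun v => ?_
  simp [PrimeC]

/-- `P` is a power of a prime dividing the exponent coded by `c`. -/
def DvC (P c : ℕ) : Prop :=
  (¬ Nat.Coprime P 2 ∧ SuppLe 3 c) ∨
    (Nat.Coprime P 2 ∧ ∃ c', PrimeC c' ∧ LinkC P c' ∧ SuppLe c' c)

theorem dvC_iff {p k a : ℕ} (hp : p.Prime) (hk : 0 < k) (ha : 1 ≤ a) :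
    DvC (p ^ k) (cd a) ↔ p ∣ a := by
  have h3 : (3 : ℕ) = cd 2 := rfl
  by_cases hp2 : p = 2
  · subst hp2
    have h1 : ¬ Nat.Coprime (2 ^ k) 2 := (not_coprime_pow_iff hp hk).2 (dvd_refl 2)
    unfold DvC
    rw [h3, suppLe_cd_iff (by norm_num) ha]
    tauto
  · have h1 : Nat.Coprime (p ^ k) 2 := by
      by_contra h
      rw [not_coprime_pow_iff hp hk] at h
      exact hp2 ((Nat.prime_dvd_prime_iff_eq hp Nat.prime_two).1 h)
    unfold DvC
    constructor
    · rintro (h | ⟨_, c', hc', hl, hs⟩)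
      · exact absurd h1 h.1
      · obtain ⟨n, hn, rfl⟩ := primeC_iff.1 hc'
        have h4 := eq_of_link hp hk hp2 hn hl
        subst h4
        exact (suppLe_cd_iff hn.one_lt.le ha).1 hs
    · intro hd
      exact Or.inr ⟨h1, cd p, primeC_iff.2 ⟨p, hp, rfl⟩, link_of_eq hp hk hp.one_lt.le,
        (suppLe_cd_iff hp.one_lt.le ha).2 hd⟩

theorem D2_dvC (σ : Sig L) : D2 L DvC := by
  have hs := D2_suppLe σ
  have a1 : D L (fun v => ¬ Nat.Coprime (v 0) (v 2) ∧ SuppLe (v 3) (v 1)) :=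
    (D.cop σ 0 2).not.and (hs.at σ 3 0 1 0)
  have a2 : D L (fun v => Nat.Coprime (v 0) (v 2) ∧ ∃ x, PrimeC x ∧ LinkC (v 0) x ∧
      SuppLe x (v 1)) := by
    refine (D.cop σ 0 2).and ((((D1_primeC σ).at σ 5 0).and (((D2_linkC σ).at σ 0 0 5 0).and
      (hs.at σ 5 0 1 0))).ex 5 |>.congr fun v => ?_)
    simp
  refine (((a1.or a2).setc σ 3 3).setc σ 2 2).congr fun v => ?_
  simp [DvC]

/-- The exponent coded by `c` and the number `y` have the same prime divisors. -/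
def SameC (c y : ℕ) : Prop := ∀ P, IsPrimePow P → (DvC P c ↔ ¬ Nat.Coprime P y)

theorem sameC_iff {a y : ℕ} (ha : 1 ≤ a) :
    SameC (cd a) y ↔ ∀ p : ℕ, p.Prime → (p ∣ a ↔ p ∣ y) := by
  constructor
  · intro h p hp
    have h1 := h (p ^ 1) ((isPrimePow_nat_iff _).2 ⟨p, 1, hp, one_pos, rfl⟩)
    rwa [dvC_iff hp one_pos ha, not_coprime_pow_iff hp one_pos] at h1
  · intro h P hP
    obtain ⟨p, k, hp, hk, rfl⟩ := (isPrimePow_nat_iff _).1 hP
    rw [dvC_iff hp hk ha, not_coprime_pow_iff hp hk]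
    exact h p hp

theorem D2_sameC (σ : Sig L) : D2 L SameC := by
  have a1 : D L (fun v => IsPrimePow (v 2) → (DvC (v 2) (v 0) ↔ ¬ Nat.Coprime (v 2) (v 1))) :=
    ((D1_isPrimePow σ).at σ 2 0).imp (((D2_dvC σ).at σ 2 0 0 0).iff (D.cop σ 2 1).not)
  refine (a1.all 2).congr fun v => ?_
  simp [SameC]

/-- `d` is the code of the successor of the exponent coded by `c`. -/
def SuccC (c d : ℕ) : Prop :=
  ∃ t, t + 1 = d ∧ ∀ s, Nat.Coprime s t ↔ (Nat.Coprime s 2 ∧ Nat.Coprime s c)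

theorem succC_iff {a b : ℕ} (ha : 1 ≤ a) (hb : 1 ≤ b) : SuccC (cd a) (cd b) ↔ b = a + 1 := by
  constructor
  · rintro ⟨t, ht, hs⟩
    obtain ⟨b', rfl⟩ : ∃ b', b = b' + 1 := ⟨b - 1, by omega⟩
    have ht2 : t = 2 * cd b' := by
      have h1 := cd_succ_eq (b' + 1)
      have h2 := cd_succ_eq b'
      rw [pow_succ] at h1
      omega
    have hb' : 1 ≤ b' := by
      by_contra h0
      have h00 : b' = 0 := by omega
      subst h00
      have ht0 : t = 0 := by rw [ht2]; rfl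
      subst ht0
      -- all primes divide 0, choose a prime not dividing 2 * cd a
      obtain ⟨p, hp, hpp⟩ := Nat.exists_infinite_primes (2 + cd a + 1)
      have h3 : Nat.Coprime p 2 := (Nat.Prime.coprime_iff_not_dvd hpp).2
        (fun hd => by have := Nat.le_of_dvd (by norm_num) hd; omega)
      have h4 : Nat.Coprime p (cd a) := (Nat.Prime.coprime_iff_not_dvd hpp).2
        (fun hd => by have := Nat.le_of_dvd (one_le_cd ha) hd; omega)
      have h5 := (hs p).2 ⟨h3, h4⟩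
      exact (Nat.Prime.coprime_iff_not_dvd hpp).1 h5 (dvd_zero p)
    have hcop : ∀ e, 1 ≤ e → Nat.Coprime 2 (cd e) := by
      intro e he
      rw [Nat.Prime.coprime_iff_not_dvd Nat.prime_two]
      intro hd
      have h6 := cd_succ_eq e
      have h7 : 2 ∣ 2 ^ e := dvd_pow_self 2 (by omega)
      omega
    have h8 : SuppLe (cd b') (cd a) := by
      rw [suppLe_iff]
      intro p hp hd
      by_contra hn
      have h9 : p ≠ 2 := by
        rintro rfl
        exact (Nat.Prime.coprime_iff_not_dvd Nat.prime_two).1 (hcop b' hb') hd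
      have h10 := (hs p).2 ⟨(Nat.coprime_primes hp Nat.prime_two).2 h9,
        (Nat.Prime.coprime_iff_not_dvd hp).2 hn⟩
      rw [ht2] at h10
      exact (Nat.Prime.coprime_iff_not_dvd hp).1 h10 (hd.mul_left 2)
    have h11 : SuppLe (cd a) (cd b') := by
      rw [suppLe_iff]
      intro p hp hd
      by_contra hn
      have h9 : p ≠ 2 := by
        rintro rfl
        exact (Nat.Prime.coprime_iff_not_dvd Nat.prime_two).1 (hcop a ha) hd
      have h10 : Nat.Coprime p t := by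
        rw [ht2]
        exact Nat.Coprime.mul_right ((Nat.coprime_primes hp Nat.prime_two).2 h9)
          ((Nat.Prime.coprime_iff_not_dvd hp).2 hn)
      exact (Nat.Prime.coprime_iff_not_dvd hp).1 ((hs p).1 h10).2 hd
    rw [suppLe_cd_iff hb' ha] at h8
    rw [suppLe_cd_iff ha hb'] at h11
    rw [Nat.dvd_antisymm h11 h8]
  · rintro rfl
    refine ⟨2 * cd a, ?_, ?_⟩
    · have h1 := cd_succ_eq (a + 1)
      have h2 := cd_succ_eq a
      rw [pow_succ] at h1
      omega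
    · intro s
      exact Nat.coprime_mul_iff_right

theorem D2_succC (σ : Sig L) : D2 L SuccC := by
  -- 0 = c, 1 = d, 2 = t, 3 = s, 4 = 2
  have a1 : D L (fun v => (Nat.Coprime (v 3) (v 2) ↔
      (Nat.Coprime (v 3) (v 4) ∧ Nat.Coprime (v 3) (v 0)))) :=
    (D.cop σ 3 2).iff ((D.cop σ 3 4).and (D.cop σ 3 0))
  have a2 : D L (fun v => v 2 + 1 = v 1) := D2.at σ (R := fun x y => x = y) (D.eq 0 1) 2 1 1 0
  refine (((a2.and (a1.all 3)).ex 2).setc σ 4 2).congr fun v => ?_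
  simp [SuccC]

end Pool.Agent.SqDef
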