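import Mathlib
import Pool.Agent.Sq42_Def.Codes

/-!
Arithmetic on exponents is definable through the codes.
-/

namespace Pool.Agent.SqDef

open FirstOrder

variable {L : FirstOrder.Language.{0, 0}} [L.Structure ℕ]

/-- The predicate `P` of positive exponents is defined, through the codes, by a formula. -/
def ED (L : FirstOrder.Language.{0, 0}) [L.Structure ℕ] (P : (ℕ → ℕ) → Prop) : Prop :=
  ∃ Q : (ℕ → ℕ) → Prop, D L Q ∧
    ∀ w : ℕ → ℕ, (∀ n, 1 ≤ w n) → (Q (fun n => cd (w n)) ↔ P w)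

theorem ED.congr {P P' : (ℕ → ℕ) → Prop} (h : ED L P)
    (hP : ∀ w : ℕ → ℕ, (∀ n, 1 ≤ w n) → (P w ↔ P' w)) : ED L P' := by
  obtain ⟨Q, hQ, h1⟩ := h
  exact ⟨Q, hQ, fun w hw => (h1 w hw).trans (hP w hw)⟩

theorem ED.not {P : (ℕ → ℕ) → Prop} (h : ED L P) : ED L (fun w => ¬ P w) := by
  obtain ⟨Q, hQ, h1⟩ := h
  exact ⟨_, hQ.not, fun w hw => not_congr (h1 w hw)⟩

theorem ED.and {P P' : (ℕ → ℕ) → Prop} (h : ED L P) (h' : ED L P') :
    ED L (fun w => P w ∧ P' w) := by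
  obtain ⟨Q, hQ, h1⟩ := h
  obtain ⟨Q', hQ', h1'⟩ := h'
  exact ⟨_, hQ.and hQ', fun w hw => and_congr (h1 w hw) (h1' w hw)⟩

theorem ED.or {P P' : (ℕ → ℕ) → Prop} (h : ED L P) (h' : ED L P') :
    ED L (fun w => P w ∨ P' w) := by
  obtain ⟨Q, hQ, h1⟩ := h
  obtain ⟨Q', hQ', h1'⟩ := h'
  exact ⟨_, hQ.or hQ', fun w hw => or_congr (h1 w hw) (h1' w hw)⟩

theorem ED.imp {P P' : (ℕ → ℕ) → Prop} (h : ED L P) (h' : ED L P') :
    ED L (fun w => P w → P' w) := by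
  obtain ⟨Q, hQ, h1⟩ := h
  obtain ⟨Q', hQ', h1'⟩ := h'
  exact ⟨_, hQ.imp hQ', fun w hw => imp_congr (h1 w hw) (h1' w hw)⟩

theorem ED.ex (σ : Sig L) (k : ℕ) {P : (ℕ → ℕ) → Prop} (h : ED L P) :
    ED L (fun w => ∃ x, 1 ≤ x ∧ P (Function.update w k x)) := by
  obtain ⟨Q, hQ, h1⟩ := h
  refine ⟨_, (((D1_isCode σ).at σ k 0).and hQ).ex k, fun w hw => ?_⟩
  have key : ∀ x, (fun n => cd (Function.update w k x n)) =
      Function.update (fun n => cd (w n)) k (cd x) := by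
    intro x
    funext n
    by_cases hn : n = k
    · subst hn; simp
    · simp [Function.update_of_ne hn]
  have hpos : ∀ x, 1 ≤ x → ∀ n, 1 ≤ Function.update w k x n := by
    intro x hx n
    by_cases hn : n = k
    · subst hn; simpa using hx
    · rw [Function.update_of_ne hn]; exact hw n
  constructor
  · rintro ⟨c, hc, hQc⟩
    rw [Function.update_self, add_zero] at hc
    obtain ⟨x, hx, rfl⟩ := hc
    refine ⟨x, hx, ?_⟩
    rw [← h1 _ (hpos x hx), key]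
    exact hQc
  · rintro ⟨x, hx, hP⟩
    refine ⟨cd x, ?_, ?_⟩
    · rw [Function.update_self, add_zero]
      exact ⟨x, hx, rfl⟩
    · rw [← key, h1 _ (hpos x hx)]
      exact hP

theorem ED.all (σ : Sig L) (k : ℕ) {P : (ℕ → ℕ) → Prop} (h : ED L P) :
    ED L (fun w => ∀ x, 1 ≤ x → P (Function.update w k x)) := by
  refine ((h.not).ex σ k).not.congr fun w _ => ?_
  push Not
  rfl

theorem ED.sub (σ : Sig L) (g : ℕ → ℕ) {P : (ℕ → ℕ) → Prop} (h : ED L P) :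
    ED L (fun w => P (fun n => w (g n))) := by
  obtain ⟨Q, hQ, h1⟩ := h
  exact ⟨_, hQ.sub σ g (fun _ => 0), fun w hw => h1 (fun n => w (g n)) (fun n => hw _)⟩

/-- relations of arity 1 -/
def E1 (L : FirstOrder.Language.{0, 0}) [L.Structure ℕ] (R : ℕ → Prop) : Prop :=
  ED L (fun w => R (w 0))

/-- relations of arity 2 -/
def E2 (L : FirstOrder.Language.{0, 0}) [L.Structure ℕ] (R : ℕ → ℕ → Prop) : Prop :=
  ED L (fun w => R (w 0) (w 1))

/-- relations of arity 3 -/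
def E3 (L : FirstOrder.Language.{0, 0}) [L.Structure ℕ] (R : ℕ → ℕ → ℕ → Prop) : Prop :=
  ED L (fun w => R (w 0) (w 1) (w 2))

theorem E1.at (σ : Sig L) {R : ℕ → Prop} (h : E1 L R) (i : ℕ) : ED L (fun w => R (w i)) :=
  ED.sub σ (fun _ => i) h

theorem E2.at (σ : Sig L) {R : ℕ → ℕ → Prop} (h : E2 L R) (i j : ℕ) :
    ED L (fun w => R (w i) (w j)) :=
  ED.sub σ (fun n => if n = 0 then i else j) h

theorem E3.at (σ : Sig L) {R : ℕ → ℕ → ℕ → Prop} (h : E3 L R) (i j k : ℕ) :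
    ED L (fun w => R (w i) (w j) (w k)) :=
  ED.sub σ (fun n => if n = 0 then i else if n = 1 then j else k) h

theorem E2_dvd (σ : Sig L) : E2 L (fun a b => a ∣ b) :=
  ⟨_, D2_suppLe σ, fun _ hw => suppLe_cd_iff (hw 0) (hw 1)⟩

theorem E2_succ (σ : Sig L) : E2 L (fun a b => b = a + 1) :=
  ⟨_, D2_succC σ, fun _ hw => succC_iff (hw 0) (hw 1)⟩

theorem E2_eq : E2 L (fun a b => a = b) :=
  ⟨_, D.eq 0 1, fun _ _ => ⟨cd_inj, fun h => congrArg cd h⟩⟩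

theorem E1_one (σ : Sig L) : E1 L (fun a => a = 1) :=
  ⟨_, D.isConst σ 0 1, fun _ _ =>
    ⟨fun h => cd_inj (h.trans (by rfl : (1 : ℕ) = cd 1)), fun h => (congrArg cd h).trans rfl⟩⟩

theorem coprime_cd_iff {a b : ℕ} : Nat.Coprime (cd a) (cd b) ↔ Nat.Coprime a b := by
  unfold cd
  rw [Nat.coprime_iff_gcd_eq_one, Nat.pow_sub_one_gcd_pow_sub_one, Nat.coprime_iff_gcd_eq_one]
  constructor
  · intro h
    have h1 : 2 ^ (Nat.gcd a b) = 2 ^ 1 := by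
      have : 1 ≤ 2 ^ (Nat.gcd a b) := Nat.one_le_two_pow
      omega
    exact Nat.pow_right_injective (le_refl 2) h1
  · intro h
    rw [h]
    norm_num

theorem E2_cop (σ : Sig L) : E2 L Nat.Coprime :=
  ⟨_, D.cop σ 0 1, fun _ _ => coprime_cd_iff⟩

theorem E3_lcm (σ : Sig L) : E3 L (fun a b c => c = Nat.lcm a b) := by
  have a1 : ED L (fun w => w 0 ∣ w 2 ∧ w 1 ∣ w 2) :=
    ((E2_dvd σ).at σ 0 2).and ((E2_dvd σ).at σ 1 2)
  have a2 : ED L (fun w => w 0 ∣ w 3 → w 1 ∣ w 3 → w 2 ∣ w 3) :=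
    ((E2_dvd σ).at σ 0 3).imp (((E2_dvd σ).at σ 1 3).imp ((E2_dvd σ).at σ 2 3))
  refine (a1.and (a2.all σ 3)).congr fun w hw => ?_
  simp only [Function.update_self]
  constructor
  · rintro ⟨⟨h1, h2⟩, h3⟩
    apply Nat.dvd_antisymm
    · have hpos : 1 ≤ Nat.lcm (w 0) (w 1) := Nat.lcm_pos (hw 0) (hw 1)
      have := h3 (Nat.lcm (w 0) (w 1)) hpos
      rw [Function.update_of_ne (by norm_num), Function.update_of_ne (by norm_num),
        Function.update_of_ne (by norm_num)] at this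
      exact this (Nat.dvd_lcm_left _ _) (Nat.dvd_lcm_right _ _)
    · exact Nat.lcm_dvd h1 h2
  · intro h
    change w 2 = Nat.lcm (w 0) (w 1) at h
    rw [h]
    refine ⟨⟨Nat.dvd_lcm_left _ _, Nat.dvd_lcm_right _ _⟩, fun x hx => ?_⟩
    rw [Function.update_of_ne (by norm_num), Function.update_of_ne (by norm_num),
        Function.update_of_ne (by norm_num), h]
    intro h1 h2
    exact Nat.lcm_dvd h1 h2

theorem E1_prime (σ : Sig L) : E1 L Nat.Prime := by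
  have a1 : ED L (fun w => w 1 ∣ w 0 → (w 1 = 1 ∨ w 1 = w 0)) :=
    ((E2_dvd σ).at σ 1 0).imp (((E1_one σ).at σ 1).or (E2_eq.at σ 1 0))
  refine (((E1_one σ).at σ 0).not.and (a1.all σ 1)).congr fun w hw => ?_
  simp only [Function.update_self]
  constructor
  · rintro ⟨h1, h2⟩
    rw [Nat.prime_def]
    refine ⟨by have := hw 0; omega, fun m hm => ?_⟩
    have := h2 m (Nat.pos_of_dvd_of_pos hm (hw 0))
    simp only [ne_eq, zero_ne_one, not_false_eq_true, Function.update_of_ne] at this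
    exact this hm
  · intro h
    refine ⟨h.one_lt.ne', fun x hx => ?_⟩
    simp only [ne_eq, zero_ne_one, not_false_eq_true, Function.update_of_ne]
    exact fun hd => (Nat.dvd_prime h).1 hd

theorem E3_inv (σ : Sig L) : E3 L Inv := by
  -- 0 = m, 1 = t, 2 = u, 3 = lcm, 4 = lcm + 1
  have a1 : ED L (fun w => w 3 = Nat.lcm (w 1) (w 2) ∧ w 4 = w 3 + 1 ∧ w 0 ∣ w 4) :=
    ((E3_lcm σ).at σ 1 2 3).and (((E2_succ σ).at σ 3 4).and ((E2_dvd σ).at σ 0 4))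
  refine (((E2_cop σ).at σ 1 2).and ((a1.ex σ 4).ex σ 3)).congr fun w hw => ?_
  unfold Inv
  refine and_congr Iff.rfl ?_
  constructor
  · rintro ⟨l, _, l', _, h1, h2, h3⟩
    simp at h1 h2 h3
    rw [h2, h1] at h3
    exact h3
  · intro h
    refine ⟨Nat.lcm (w 1) (w 2), Nat.lcm_pos (hw 1) (hw 2), Nat.lcm (w 1) (w 2) + 1, by omega, ?_⟩
    simp [h]

theorem E3_cg (σ : Sig L) : E3 L Cg := by
  have a1 : ED L (fun w => Inv (w 0) (w 3) (w 1) ∧ Inv (w 0) (w 3) (w 2)) :=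
    ((E3_inv σ).at σ 0 3 1).and ((E3_inv σ).at σ 0 3 2)
  refine (a1.ex σ 3).congr fun w hw => ?_
  simp [Cg]

theorem E3_mul (σ : Sig L) : E3 L (fun a b c => a * b = c) := by
  -- 0 = x, 1 = y, 2 = z, 3 = m, 4 = y', 5 = lcm
  have a1 : ED L (fun w => w 5 = Nat.lcm (w 0) (w 4) ∧ Cg (w 3) (w 5) (w 2)) :=
    ((E3_lcm σ).at σ 0 4 5).and ((E3_cg σ).at σ 3 5 2)
  have a2 : ED L (fun w => Cg (w 3) (w 4) (w 1) ∧ Nat.Coprime (w 4) (w 0) ∧
      Cg (w 3) (Nat.lcm (w 0) (w 4)) (w 2)) := by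
    refine (((E3_cg σ).at σ 3 4 1).and (((E2_cop σ).at σ 4 0).and (a1.ex σ 5))).congr
      fun w hw => ?_
    refine and_congr Iff.rfl (and_congr Iff.rfl ?_)
    constructor
    · rintro ⟨l, _, h1, h2⟩
      simp at h1 h2
      rwa [h1] at h2
    · intro h
      exact ⟨Nat.lcm (w 0) (w 4), Nat.lcm_pos (hw 0) (hw 4), by simp [h]⟩
  have a3 : ED L (fun w => (w 3).Prime → ¬ w 3 ∣ w 0 → ¬ w 3 ∣ w 1 → ¬ w 3 ∣ w 2 →
      ∃ x, 1 ≤ x ∧ Cg (w 3) x (w 1) ∧ Nat.Coprime x (w 0) ∧ Cg (w 3) (Nat.lcm (w 0) x) (w 2)) := by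
    refine (((E1_prime σ).at σ 3).imp (((E2_dvd σ).at σ 3 0).not.imp
      (((E2_dvd σ).at σ 3 1).not.imp (((E2_dvd σ).at σ 3 2).not.imp (a2.ex σ 4))))).congr
      fun w hw => ?_
    simp
  refine (a3.all σ 3).congr fun w hw => ?_
  change _ ↔ w 0 * w 1 = w 2
  rw [← mul_iff (hw 0) (hw 1) (hw 2)]
  simp [Mul]

theorem E3_add (σ : Sig L) : E3 L (fun a b c => a + b = c) := by
  have m := E3_mul σ
  have s := E2_succ σ
  have a1 : ED L (fun w => w 0 * w 2 = w 3 ∧ w 1 * w 2 = w 4 ∧ w 5 = w 3 + 1 ∧ w 6 = w 4 + 1 ∧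
      w 0 * w 1 = w 7 ∧ w 8 = w 7 + 1 ∧ w 2 * w 2 = w 9 ∧ w 9 * w 8 = w 10 ∧
      w 5 * w 6 = w 11 ∧ w 11 = w 10 + 1) :=
    (m.at σ 0 2 3).and ((m.at σ 1 2 4).and ((s.at σ 3 5).and ((s.at σ 4 6).and
      ((m.at σ 0 1 7).and ((s.at σ 7 8).and ((m.at σ 2 2 9).and ((m.at σ 9 8 10).and
      ((m.at σ 5 6 11).and (s.at σ 10 11)))))))))
  refine (((((((((a1.ex σ 11).ex σ 10).ex σ 9).ex σ 8).ex σ 7).ex σ 6).ex σ 5).ex σ 4).ex σ 3).congr
    fun w hw => ?_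
  change _ ↔ w 0 + w 1 = w 2
  rw [add_iff (hw 2)]
  constructor
  · rintro ⟨x3, _, x4, _, x5, _, x6, _, x7, _, x8, _, x9, _, x10, _, x11, _, h⟩
    simp at h
    obtain ⟨h1, h2, h3, h4, h5, h6, h7, h8, h9, h10⟩ := h
    subst h1 h2 h3 h4 h5 h6 h7 h8
    rw [h9, h10]
  · intro h
    have p0 := hw 0
    have p1 := hw 1
    have p2 := hw 2
    refine ⟨w 0 * w 2, Nat.mul_pos p0 p2, w 1 * w 2, Nat.mul_pos p1 p2, w 0 * w 2 + 1, by omega,
      w 1 * w 2 + 1, by omega, w 0 * w 1, Nat.mul_pos p0 p1, w 0 * w 1 + 1, by omega,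
      w 2 * w 2, Nat.mul_pos p2 p2, w 2 * w 2 * (w 0 * w 1 + 1),
      Nat.mul_pos (Nat.mul_pos p2 p2) (by omega), w 2 * w 2 * (w 0 * w 1 + 1) + 1, by omega, ?_⟩
    simp [h]

theorem E2_lt (σ : Sig L) : E2 L (fun a b => a < b) := by
  refine (((E3_add σ).at σ 0 2 1).ex σ 2).congr fun w hw => ?_
  constructor
  · rintro ⟨x, hx, h⟩
    simp at h
    omega
  · intro h
    exact ⟨w 1 - w 0, by omega, by simp; omega⟩

end Pool.Agent.SqDef
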