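import Mathlib
import Pool.Agent.Sq42_Def.Expo

/-!
The set of those `y` whose class has its least element in `A` is definable.
-/

namespace Pool.Agent.SqDef

open FirstOrder

variable {L : FirstOrder.Language.{0, 0}} [L.Structure ℕ]

/-- From definability on exponents to definability on codes, one variable. -/
theorem E1.toD (σ : Sig L) {R : ℕ → Prop} (h : E1 L R) :
    ∃ Q : ℕ → Prop, D1 L Q ∧ ∀ a, 1 ≤ a → (Q (cd a) ↔ R a) := by
  obtain ⟨Q, hQ, h1⟩ := h
  exact ⟨fun c => Q (fun _ => c), hQ.sub σ (fun _ => 0) (fun _ => 0),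
    fun a ha => h1 (fun _ => a) (fun _ => ha)⟩

/-- From definability on exponents to definability on codes, two variables. -/
theorem E2.toD (σ : Sig L) {R : ℕ → ℕ → Prop} (h : E2 L R) :
    ∃ Q : ℕ → ℕ → Prop, D2 L Q ∧ ∀ a b, 1 ≤ a → 1 ≤ b → (Q (cd a) (cd b) ↔ R a b) := by
  obtain ⟨Q, hQ, h1⟩ := h
  refine ⟨fun c d => Q (fun n => if n = 0 then c else d), ?_, fun a b ha hb => ?_⟩
  · refine (hQ.sub σ (fun n => if n = 0 then 0 else 1) (fun _ => 0)).congr fun v => ?_
    have : (fun n => v (if n = 0 then 0 else 1) + (fun _ => 0) n) =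
        (fun n => if n = 0 then v 0 else v 1) := by
      funext n
      by_cases hn : n = 0 <;> simp [hn]
    rw [this]
  · have := h1 (fun n => if n = 0 then a else b) (fun n => by split_ifs <;> assumption)
    have h2 : (fun n => cd (if n = 0 then a else b)) = (fun n => if n = 0 then cd a else cd b) := by
      funext n
      by_cases hn : n = 0 <;> simp [hn]
    change Q (fun n => if n = 0 then cd a else cd b) ↔ R a b
    rw [← h2]
    simpa using this

theorem E2_shift (σ : Sig L) (j : ℕ) : E2 L (fun a b => b = a + j) := by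
  induction j with
  | zero =>
    exact (E2_eq (L := L)).congr fun w _ => ⟨fun h => Eq.symm h, fun h => Eq.symm h⟩
  | succ j ih =>
    refine (((E2.at σ ih 0 2).and ((E2_succ σ).at σ 2 1)).ex σ 2).congr fun w hw => ?_
    constructor
    · rintro ⟨x, _, h1, h2⟩
      simp at h1 h2
      omega
    · intro h
      refine ⟨w 0 + j, by have := hw 0; omega, ?_⟩
      simp
      omega

/-- same prime divisors of `x + j` and `y + j` for `j ≤ K` -/
def Same (K x y : ℕ) : Prop := ∀ j, j ≤ K → ∀ p : ℕ, p.Prime → (p ∣ x + j ↔ p ∣ y + j)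

theorem exists_same (σ : Sig L) (K : ℕ) :
    ∃ Q : ℕ → ℕ → Prop, D2 L Q ∧ ∀ a y, 1 ≤ a → (Q (cd a) y ↔ Same K a y) := by
  have hstep : ∀ j : ℕ, ∃ Q : ℕ → ℕ → Prop, D2 L Q ∧
      ∀ a y, 1 ≤ a → (Q (cd a) y ↔ ∀ p : ℕ, p.Prime → (p ∣ a + j ↔ p ∣ y + j)) := by
    intro j
    obtain ⟨T, hT, hT'⟩ := E2.toD σ (E2_shift σ j)
    refine ⟨fun c y => ∃ d, IsCode d ∧ T c d ∧ SameC d (y + j), ?_, ?_⟩
    · have h1 : D L (fun v => IsCode (v 2) ∧ T (v 0) (v 2) ∧ SameC (v 2) (v 1 + j)) :=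
        ((D1_isCode σ).at σ 2 0).and ((hT.at σ 0 0 2 0).and ((D2_sameC σ).at σ 2 0 1 j))
      refine (h1.ex 2).congr fun v => ?_
      simp
    · intro a y ha
      constructor
      · rintro ⟨d, ⟨b, hb, rfl⟩, h1, h2⟩
        rw [hT' a b ha hb] at h1
        rw [h1] at h2
        exact (sameC_iff (by omega)).1 h2
      · intro h
        exact ⟨cd (a + j), ⟨a + j, by omega, rfl⟩, (hT' a (a + j) ha (by omega)).2 rfl,
          (sameC_iff (by omega)).2 h⟩
  induction K with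
  | zero =>
    obtain ⟨Q, hQ, hQ'⟩ := hstep 0
    refine ⟨Q, hQ, fun a y ha => (hQ' a y ha).trans ?_⟩
    constructor
    · intro h j hj
      have : j = 0 := by omega
      subst this
      exact h
    · intro h
      exact h 0 le_rfl
  | succ K ih =>
    obtain ⟨Q, hQ, hQ'⟩ := hstep (K + 1)
    obtain ⟨Q1, hQ1, hQ1'⟩ := ih
    refine ⟨fun c y => Q1 c y ∧ Q c y, D.and hQ1 hQ, fun a y ha => ?_⟩
    change (Q1 (cd a) y ∧ Q (cd a) y) ↔ _
    rw [hQ' a y ha, hQ1' a y ha]
    constructor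
    · rintro ⟨h1, h2⟩ j hj
      rcases Nat.lt_or_ge K j with h | h
      · have : j = K + 1 := by omega
        subst this
        exact h2
      · exact h1 j h
    · intro h
      exact ⟨fun j hj => h j (by omega), h (K + 1) le_rfl⟩

/-- The set of those `y` for which the least positive element of the class of `y` is in `A`. -/
theorem exists_least (σ : Sig L) {A : ℕ → Prop} (hA : E1 L A) (K : ℕ) :
    ∃ B : ℕ → Prop, D1 L B ∧
      ∀ y, 1 ≤ y → (¬ ∃ x, 1 ≤ x ∧ x < y ∧ Same K x y) → (B y ↔ A y) := by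
  obtain ⟨QA, hQA, hQA'⟩ := E1.toD σ hA
  obtain ⟨QL, hQL, hQL'⟩ := E2.toD σ (E2_lt σ)
  obtain ⟨QS, hQS, hQS'⟩ := exists_same σ K
  refine ⟨fun y => ∃ c, IsCode c ∧ QS c y ∧ QA c ∧
    ∀ c', IsCode c' → QL c' c → ¬ QS c' y, ?_, ?_⟩
  · have h1 : D L (fun v => IsCode (v 2) → QL (v 2) (v 1) → ¬ QS (v 2) (v 0)) :=
      ((D1_isCode σ).at σ 2 0).imp ((hQL.at σ 2 0 1 0).imp (hQS.at σ 2 0 0 0).not)
    have h2 : D L (fun v => IsCode (v 1) ∧ QS (v 1) (v 0) ∧ QA (v 1) ∧
        ∀ x, IsCode x → QL x (v 1) → ¬ QS x (v 0)) := by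
      refine (((D1_isCode σ).at σ 1 0).and ((hQS.at σ 1 0 0 0).and ((hQA.at σ 1 0).and
        (h1.all 2)))).congr fun v => ?_
      simp
    refine (h2.ex 1).congr fun v => ?_
    simp
  · intro y hy hmin
    constructor
    · rintro ⟨c, ⟨a, ha, rfl⟩, h1, h2, h3⟩
      rw [hQS' a y ha] at h1
      rw [hQA' a ha] at h2
      rcases lt_trichotomy a y with h | h | h
      · exact absurd ⟨a, ha, h, h1⟩ hmin
      · rwa [h] at h2
      · exfalso
        apply h3 (cd y) ⟨y, hy, rfl⟩ ((hQL' y a hy ha).2 h)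
        rw [hQS' y y hy]
        exact fun j _ p _ => Iff.rfl
    · intro hAy
      refine ⟨cd y, ⟨y, hy, rfl⟩, ?_, (hQA' y hy).2 hAy, ?_⟩
      · rw [hQS' y y hy]
        exact fun j _ p _ => Iff.rfl
      · rintro c' ⟨b, hb, rfl⟩ hlt hS
        rw [hQL' b y hb hy] at hlt
        rw [hQS' b y hb] at hS
        exact hmin ⟨b, hb, hlt, hS⟩

end Pool.Agent.SqDef
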