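import Mathlib
import Pool.Agent.Sq42_Def.Approx

/-!
Arithmetical sets (definable in the structure of natural numbers with sum and product) are
definable on exponents.
-/

namespace Pool.Agent.SqDef

open FirstOrder FirstOrder.Language

/-- The two function symbols of arithmetic. -/
inductive ArithFunc : ℕ → Type
  | add : ArithFunc 2
  | mul : ArithFunc 2

/-- The language with two binary function symbols, for the sum and the product. -/
def arithLang : FirstOrder.Language.{0, 0} := ⟨ArithFunc, fun _ => Empty⟩

/-- The standard structure on the natural numbers with sum and product. -/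
instance arithStructure : arithLang.Structure ℕ where
  funMap {_} f v := match f with
    | ArithFunc.add => v 0 + v 1
    | ArithFunc.mul => v 0 * v 1
  RelMap {_} r _ := nomatch r

variable {L : FirstOrder.Language.{0, 0}} [L.Structure ℕ]

/-- the valuation of the variables of a bounded formula read from a sequence of exponents -/
def vals (n : ℕ) (w : ℕ → ℕ) : (Fin 1) ⊕ (Fin n) → ℕ :=
  Sum.elim (fun _ => w 0 - 1) (fun i => w (i + 1) - 1)

theorem vals_update {n k x : ℕ} (w : ℕ → ℕ) (hk : n + 1 ≤ k) :
    vals n (Function.update w k x) = vals n w := by
  funext s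
  rcases s with s | s
  · simp only [vals, Sum.elim_inl]
    rw [Function.update_of_ne (by omega)]
  · simp only [vals, Sum.elim_inr]
    rw [Function.update_of_ne (by have := s.2; omega)]

theorem term_ED (σ : Sig L) {n : ℕ} (t : arithLang.Term ((Fin 1) ⊕ (Fin n))) :
    ∀ k, ED L (fun w => w k = t.realize (vals n w) + 1) := by
  induction t with
  | var s =>
    intro k
    rcases s with s | s
    · refine ((E2_eq (L := L)).at σ k 0).congr fun w hw => ?_
      have := hw 0
      simp only [Term.realize_var, vals, Sum.elim_inl]
      omega
    · refine ((E2_eq (L := L)).at σ k (s + 1)).congr fun w hw => ?_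
      have := hw (s + 1)
      simp only [Term.realize_var, vals, Sum.elim_inr]
      omega
  | @func l f ts ih =>
    intro k
    cases f with
    | add =>
      -- fresh indices
      set a := n + k + 2 with ha
      set b := n + k + 3 with hb
      set c := n + k + 4 with hc
      have h1 : ED L (fun w => w a = (ts 0).realize (vals n w) + 1 ∧
          w b = (ts 1).realize (vals n w) + 1 ∧ w a + w b = w c ∧ w c = w k + 1) :=
        (ih 0 a).and ((ih 1 b).and (((E3_add σ).at σ a b c).and ((E2_succ σ).at σ k c)))
      refine (((h1.ex σ c).ex σ b).ex σ a).congr fun w hw => ?_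
      have hfm : (Term.func ArithFunc.add ts : arithLang.Term _).realize (vals n w) =
          (ts 0).realize (vals n w) + (ts 1).realize (vals n w) := rfl
      rw [hfm]
      have e1 : ∀ x y z, vals n (Function.update (Function.update (Function.update w a x) b y) c z)
          = vals n w := by
        intro x y z
        rw [vals_update _ (by omega), vals_update _ (by omega), vals_update _ (by omega)]
      constructor
      · rintro ⟨x, hx, y, hy, z, hz, h⟩
        rw [e1] at h
        simp only [ha, hb, hc, Function.update_self, Function.update_of_ne, ne_eq,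
          Nat.add_left_cancel_iff, Nat.reduceEqDiff, not_false_eq_true] at h
        rw [Function.update_of_ne (by omega), Function.update_of_ne (by omega),
          Function.update_of_ne (by omega)] at h
        omega
      · intro h
        refine ⟨(ts 0).realize (vals n w) + 1, by omega, (ts 1).realize (vals n w) + 1, by omega,
          (ts 0).realize (vals n w) + 1 + ((ts 1).realize (vals n w) + 1), by omega, ?_⟩
        rw [e1]
        simp only [ha, hb, hc, Function.update_self, Function.update_of_ne, ne_eq,
          Nat.add_left_cancel_iff, Nat.reduceEqDiff, not_false_eq_true]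
        rw [Function.update_of_ne (by omega), Function.update_of_ne (by omega),
          Function.update_of_ne (by omega)]
        simp only [true_and]
        omega
    | mul =>
      -- (x-1)(y-1)+1 = w k, i.e. x*y + 2 = x + y + w k; p = x*y, q = x+y, r = q + w k
      set a := n + k + 2 with ha
      set b := n + k + 3 with hb
      set c := n + k + 4 with hc
      set d := n + k + 5 with hd
      set e := n + k + 6 with he
      set g := n + k + 7 with hg
      have h1 : ED L (fun w => w a = (ts 0).realize (vals n w) + 1 ∧
          w b = (ts 1).realize (vals n w) + 1 ∧ w a * w b = w c ∧ w a + w b = w d ∧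
          w d + w k = w e ∧ w g = w c + 1 ∧ w e = w g + 1) :=
        (ih 0 a).and ((ih 1 b).and (((E3_mul σ).at σ a b c).and (((E3_add σ).at σ a b d).and
          (((E3_add σ).at σ d k e).and (((E2_succ σ).at σ c g).and ((E2_succ σ).at σ g e))))))
      refine ((((((h1.ex σ g).ex σ e).ex σ d).ex σ c).ex σ b).ex σ a).congr fun w hw => ?_
      have hfm : (Term.func ArithFunc.mul ts : arithLang.Term _).realize (vals n w) =
          (ts 0).realize (vals n w) * (ts 1).realize (vals n w) := rfl
      rw [hfm]
      have e1 : ∀ x y z x' y' z', vals n (Function.update (Function.update (Function.update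
          (Function.update (Function.update (Function.update w a x) b y) c z) d x') e y') g z')
          = vals n w := by
        intro x y z x' y' z'
        rw [vals_update _ (by omega), vals_update _ (by omega), vals_update _ (by omega),
          vals_update _ (by omega), vals_update _ (by omega), vals_update _ (by omega)]
      constructor
      · rintro ⟨x, hx, y, hy, z, hz, x', hx', y', hy', z', hz', h⟩
        rw [e1] at h
        simp only [ha, hb, hc, hd, he, hg, Function.update_self, Function.update_of_ne, ne_eq,
          Nat.add_left_cancel_iff, Nat.reduceEqDiff, not_false_eq_true] at h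
        rw [Function.update_of_ne (by omega), Function.update_of_ne (by omega),
          Function.update_of_ne (by omega), Function.update_of_ne (by omega),
          Function.update_of_ne (by omega), Function.update_of_ne (by omega)] at h
        obtain ⟨h2, h3, h4, h5, h6, h7, h8⟩ := h
        rw [h2, h3] at h4 h5
        have h9 : z = (ts 0).realize (vals n w) * (ts 1).realize (vals n w) +
          (ts 0).realize (vals n w) + (ts 1).realize (vals n w) + 1 := by
          rw [← h4]; ring
        omega
      · intro h
        refine ⟨(ts 0).realize (vals n w) + 1, by omega, (ts 1).realize (vals n w) + 1, by omega,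
          ((ts 0).realize (vals n w) + 1) * ((ts 1).realize (vals n w) + 1),
          Nat.mul_pos (by omega) (by omega),
          ((ts 0).realize (vals n w) + 1) + ((ts 1).realize (vals n w) + 1), by omega,
          ((ts 0).realize (vals n w) + 1) + ((ts 1).realize (vals n w) + 1) + w k, by omega,
          ((ts 0).realize (vals n w) + 1) * ((ts 1).realize (vals n w) + 1) + 1, by omega, ?_⟩
        rw [e1]
        simp only [ha, hb, hc, hd, he, hg, Function.update_self, Function.update_of_ne, ne_eq,
          Nat.add_left_cancel_iff, Nat.reduceEqDiff, not_false_eq_true]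
        rw [Function.update_of_ne (by omega), Function.update_of_ne (by omega),
          Function.update_of_ne (by omega), Function.update_of_ne (by omega),
          Function.update_of_ne (by omega), Function.update_of_ne (by omega)]
        have h9 : ((ts 0).realize (vals n w) + 1) * ((ts 1).realize (vals n w) + 1) =
          (ts 0).realize (vals n w) * (ts 1).realize (vals n w) +
          (ts 0).realize (vals n w) + (ts 1).realize (vals n w) + 1 := by ring
        rw [h9]
        simp only [true_and]
        omega

theorem formula_ED (σ : Sig L) {n : ℕ} (φ : arithLang.BoundedFormula (Fin 1) n) :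
    ED L (fun w => φ.Realize (fun _ => w 0 - 1) (fun i => w (i + 1) - 1)) := by
  induction φ with
  | falsum =>
    exact ⟨fun _ => False, D.const False, fun w _ => Iff.rfl⟩
  | @equal n t₁ t₂ =>
    have h1 := (term_ED σ t₁ (n + 2)).and (term_ED σ t₂ (n + 2))
    refine (h1.ex σ (n + 2)).congr fun w hw => ?_
    change _ ↔ t₁.realize (vals n w) = t₂.realize (vals n w)
    constructor
    · rintro ⟨x, _, h2, h3⟩
      rw [vals_update _ (by omega), Function.update_self] at h2 h3
      omega
    · intro h
      refine ⟨t₁.realize (vals n w) + 1, by omega, ?_⟩
      rw [vals_update _ (by omega), Function.update_self]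
      exact ⟨rfl, by rw [h]⟩
  | rel R ts => exact nomatch R
  | imp φ ψ ih1 ih2 => exact ih1.imp ih2
  | @all n φ ih =>
    refine (ih.all σ (n + 1)).congr fun w hw => ?_
    rw [BoundedFormula.realize_all]
    have key : ∀ x : ℕ, (fun i : Fin (n + 1) => Function.update w (n + 1) (x + 1) (i + 1) - 1) =
        Fin.snoc (fun i : Fin n => w (i + 1) - 1) x := by
      intro x
      funext i
      refine Fin.lastCases ?_ (fun i => ?_) i
      · simp
      · rw [Fin.snoc_castSucc, Function.update_of_ne]
        · simp
        · have := i.2
          simp only [Fin.val_castSucc]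
          omega
    have key0 : ∀ x : ℕ, Function.update w (n + 1) (x + 1) 0 = w 0 := by
      intro x
      rw [Function.update_of_ne (by omega)]
    constructor
    · intro h x
      have h2 := h (x + 1) (by omega)
      rw [key, key0] at h2
      exact h2
    · intro h x hx
      obtain ⟨y, rfl⟩ : ∃ y, x = y + 1 := ⟨x - 1, by omega⟩
      rw [key, key0]
      exact h y

/-- Arithmetical sets are definable on exponents. -/
theorem arith_E1 (σ : Sig L) {A : ℕ → Prop}
    (hA : Set.Definable (∅ : Set ℕ) arithLang {v : Fin 1 → ℕ | A (v 0)}) : E1 L A := by
  rw [Set.empty_definable_iff] at hA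
  obtain ⟨φ, hφ⟩ := hA
  have h1 : ∀ z : ℕ, φ.Realize (fun _ => z) ↔ A z := by
    intro z
    have h2 : ((fun _ => z) : Fin 1 → ℕ) ∈ {v : Fin 1 → ℕ | A (v 0)} ↔
        φ.Realize (fun _ => z) := by
      rw [hφ]; exact Iff.rfl
    exact h2.symm
  have h2 : ED L (fun w => A (w 0 - 1)) := by
    refine (formula_ED σ φ).congr fun w hw => ?_
    rw [← h1]
    unfold Formula.Realize
    have h3 : ∀ xs ys : Fin 0 → ℕ, BoundedFormula.Realize φ (fun _ => w 0 - 1) xs ↔
        BoundedFormula.Realize φ (fun _ => w 0 - 1) ys :=
      fun xs ys => by rw [Subsingleton.elim xs ys]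
    exact h3 _ _
  have h3 : E1 L (fun x => A (x - 1)) := h2
  refine (((h3.at σ 1).and ((E2_succ σ).at σ 0 1)).ex σ 1).congr fun w hw => ?_
  constructor
  · rintro ⟨x, _, h4, h5⟩
    simp at h4 h5
    rw [h5] at h4
    simpa using h4
  · intro h
    exact ⟨w 0 + 1, by omega, by simpa using h⟩

/-- The set of squares is arithmetical. -/
theorem squares_arith :
    Set.Definable (∅ : Set ℕ) arithLang {v : Fin 1 → ℕ | IsSquare (v 0)} := by
  rw [Set.empty_definable_iff]
  let t : arithLang.Term (Fin 1 ⊕ Fin 1) :=
    Term.func ArithFunc.mul ![Term.var (Sum.inr 0), Term.var (Sum.inr 0)]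
  let ψ : arithLang.Formula (Fin 1 ⊕ Fin 1) := Term.equal (Term.var (Sum.inl 0)) t
  refine ⟨ψ.iExs (Fin 1), ?_⟩
  ext v
  change IsSquare (v 0) ↔ (ψ.iExs (Fin 1)).Realize v
  rw [Formula.realize_iExs]
  constructor
  · rintro ⟨r, hr⟩
    refine ⟨fun _ => r, ?_⟩
    rw [Formula.realize_equal]
    exact hr
  · rintro ⟨i, hi⟩
    rw [Formula.realize_equal] at hi
    exact ⟨i 0, hi⟩

end Pool.Agent.SqDef
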